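import Pool.Agent.Lib.MP_d90615_co.Mg.G030

/-!
The finite check, by computation in the kernel.
-/

namespace Pool.Agent.SC

set_option maxRecDepth 100000 in
lemma chk2_le_six : ∀ m ≤ 6, chk2 m = true := by
  intro m hm
  interval_cases m <;> decide +kernel

set_option maxRecDepth 100000 in
lemma chk_five : ∀ m ≤ 5, chk m = true := by
  intro m hm
  interval_cases m <;> decide +kernel

set_option maxRecDepth 100000 in
lemma chk_six : chk 6 = true := by decide +kernel

lemma chk_le_six : ∀ m ≤ 6, chk m = true := by
  intro m hm
  rcases Nat.lt_or_ge m 6 with h | h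
  · exact chk_five m (by omega)
  · have h6 : m = 6 := by omega
    rw [h6]
    exact chk_six

end Pool.Agent.SC
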