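import Pool.Agent.Lib.MP_d90615_co.Mg.G032
import Pool.Agent.Lib.MP_d90615_co.SC.Check
import Pool.Agent.Lib.MP_d90615_co.Cycle

/-!
The sum of squares for an edge on short cycles.
-/

namespace Pool.Agent.SC

open Finset Pool.Agent.Lib.MP_d90615_co
open scoped Classical

variable {V E : Type*}

/-- `v 0, …, v (n+1)` and `c 0, …, c (n+1)` are the vertices and edges of a cycle of length
`n + 2`. -/
def IsCycle (ends : E → Sym2 V) (n : ℕ) (v : Fin (n + 2) → V) (c : Fin (n + 2) → E) : Prop :=
  Function.Injective v ∧ Function.Injective c ∧ ∀ i, ends (c i) = s(v i, v (i + 1))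

lemma path_length {ends : E → Sym2 V} {e : E} {a b : V} (he : ends e = s(a, b))
    (hcyc : ∀ n v c, IsCycle ends n v c → e ∈ Set.range c → n + 2 ≤ 7)
    {F : Finset E} (heF : e ∉ F) {m : ℕ} {v : ℕ → V} {ε : ℕ → E}
    (hp : IsPath ends F a b m v ε) : m ≤ 6 := by
  cases m with
  | zero => omega
  | succ n =>
    have h1 : n + 2 ≤ 7 := by
      refine hcyc n (fun i => v i.val) (fun i => if i.val < n + 1 then ε i.val else e)
        ⟨?_, ?_, ?_⟩ ?_
      · intro i j hij
        exact Fin.ext (hp.inj _ (by omega) _ (by omega) hij)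
      · intro i j hij
        simp only at hij
        split_ifs at hij with h1 h2 h2
        · exact Fin.ext (hp.edge_inj h1 h2 hij)
        · exact absurd (hij ▸ hp.mem _ h1) heF
        · exact absurd (hij ▸ hp.mem _ h2) heF
        · exact Fin.ext (by omega)
      · intro i
        simp only
        by_cases h : i.val < n + 1
        · rw [if_pos h, hp.ends_eq _ h]
          have h2 : (i + 1).val = i.val + 1 := by
            rw [Fin.val_add_one_of_lt]
            rw [Fin.lt_def]
            simpa using h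
          rw [h2]
        · rw [if_neg h]
          have hi : i = Fin.last (n + 1) := Fin.ext (by
            have := i.isLt
            simp only [Fin.val_last]
            omega)
          rw [hi, Fin.last_add_one, he, Fin.val_last, Fin.val_zero, hp.start, hp.stop,
            Sym2.eq_swap]
      · exact ⟨Fin.last (n + 1), by simp⟩
    omega

lemma gs_abs (ν : V → ℕ) (L : List (V × V)) : |gs ν L| ≤ 1 := by
  have h : ∀ a b : ℕ, sg a b = 1 ∨ sg a b = -1 := by
    intro a b
    unfold sg
    split_ifs
    · exact Or.inl rfl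
    · exact Or.inr rfl
  match L with
  | [] => simp [gs]
  | [s] =>
    rcases h (ν s.1) (ν s.2) with h1 | h1 <;> simp [gs, h1]
  | [s, r] =>
    rcases h (ν s.1) (ν s.2) with h1 | h1 <;> rcases h (ν r.1) (ν r.2) with h2 | h2 <;>
      rcases h (min (ν s.1) (ν s.2)) (min (ν r.1) (ν r.2)) with h3 | h3 <;>
      simp [gs, h1, h2, h3]
  | _ :: _ :: _ :: _ => simp [gs]

/-- The exchange identity for an edge on short cycles. -/
lemma key_of_short [Fintype V] {ends : E → Sym2 V} {e : E} {a b : V} (he : ends e = s(a, b))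
    (hcyc : ∀ n v c, IsCycle ends n v c → e ∈ Set.range c → n + 2 ≤ 7) {U : Finset E}
    (heU : e ∉ U) :
    ∃ g : Finset E → Finset E → ℤ, (∀ F S, |g F S| ≤ 1) ∧
      ∀ F ∈ AA ends U a b, ∀ F0 ∈ NN ends U a b,
        ∑ S ∈ (Pth ends a b F).powerset,
          (if Cond ends a b F0 S then g F S * g (F0 ∪ S) S else 0) = 1 := by
  obtain ⟨ν, hν⟩ : ∃ ν : V → ℕ, Function.Injective ν :=
    ⟨fun x => (Fintype.equivFin V x).val, fun x y h =>
      (Fintype.equivFin V).injective (Fin.ext h)⟩
  refine ⟨GS ν ends a b, fun F S => gs_abs _ _, fun F hF F0 hF0 => ?_⟩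
  rw [mem_AA] at hF
  rw [mem_NN] at hF0
  obtain ⟨m, v, ε, hp⟩ := exists_path e hF.2.2
  have hm := path_length he hcyc (fun h => heU (hF.1 h)) hp
  have := key hν hF.2.1 hp (chk_le_six m hm) (chk2_le_six m hm) hF0.2.1 hF0.2.2
    (fun S => Classical.propDecidable _)
  exact this

end Pool.Agent.SC
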