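import Mathlib
import Pool.Agent.Lib.MP_d90615_co.SC.Fin

/-!
# Negative correlation for an edge on short cycles, by an exact sum of squares

Let `e = ab` be an edge of a finite multigraph which lies on no cycle of length `≥ 8`.  For every
other edge `f` the Rayleigh difference of the forest polynomial at `e, f` is a sum of squares of
polynomials multiplied by monomials.

Proof.  Let `F` be a forest without `e` which joins `a` and `b`, with path `P(F)`, and `F0` a
forest without `e` which does not.  The sets `S ⊆ P(F) ∖ F0` such that `F0 ∪ S` is a forest which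
joins `a` and `b` by a path containing `S` correspond to the simple paths through the components
of `F0` with edges in `P(F)`.  There are signs `g(F, S)` (orientations and order of the pieces
of `S` on `P(F)`) with `∑_S g(F, S) g(F0 ∪ S, S) = 1`; this only depends on the partition of the
at most 7 vertices of `P(F)` by the components of `F0`, and is a computation.  The exchange
`(F, F0) ↦ (F, F0 ∪ S)` then gives the sum of squares.
-/

namespace Pool.Agent.SC.Main

open Finset Pool.Agent.Lib.MP_d90615_co
open scoped Classical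

/-- The spanning forests of the finite multigraph with edge set `E`, vertex set `V` and end map
`ends`: the sets of edges that contain no cycle. -/
noncomputable def forests {V E : Type*} [Fintype E] (ends : E → Sym2 V) : Finset (Finset E) :=
  univ.filter fun F => ¬ HasCycle ends F

/-- Probability of the event `p` for a random spanning forest `F` chosen with probability
proportional to the product of the weights of its edges (`w = 1`: uniformly). -/
noncomputable def prob {V E : Type*} [Fintype E] (ends : E → Sym2 V) (w : E → ℝ)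
    (p : Finset E → Prop) : ℝ :=
  (∑ F ∈ (forests ends).filter p, ∏ g ∈ F, w g) / ∑ F ∈ forests ends, ∏ g ∈ F, w g

/-- The sum over the spanning forests `F` with `p F` of the product of the weights of the edges
of `F` other than `e` and `f`. -/
noncomputable def part {V E : Type*} [Fintype E] (ends : E → Sym2 V) (w : E → ℝ) (e f : E)
    (p : Finset E → Prop) : ℝ :=
  ∑ F ∈ (forests ends).filter p, ∏ g ∈ (F.erase e).erase f, w g

/-- `e` lies on no cycle with 8 or more edges: if distinct vertices `v 0, …, v (n+1)` and distinct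
edges `c 0, …, c (n+1)` with ends `v i`, `v (i+1)` (indices modulo `n+2`) form a cycle and `e` is
one of its edges, then `n + 2 ≤ 7`. -/
def OnShortCycles {V E : Type*} (ends : E → Sym2 V) (e : E) : Prop :=
  ∀ (n : ℕ) (v : Fin (n + 2) → V) (c : Fin (n + 2) → E), Function.Injective v →
    Function.Injective c → (∀ i, ends (c i) = s(v i, v (i + 1))) → (∃ i, c i = e) → n + 2 ≤ 7

lemma prob_eq {V E : Type*} [Fintype E] (ends : E → Sym2 V) (w : E → ℝ)
    (p : Finset E → Prop) [inst : DecidablePred p] : prob ends w p =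
      (∑ F ∈ (forests ends).filter p, ∏ g ∈ F, w g) / ∑ F ∈ forests ends, ∏ g ∈ F, w g := by
  have h : inst = fun a => Classical.propDecidable (p a) := Subsingleton.elim _ _
  subst h
  rfl

lemma part_eq {V E : Type*} [Fintype E] (ends : E → Sym2 V) (w : E → ℝ) (e f : E)
    (p : Finset E → Prop) [inst : DecidablePred p] : part ends w e f p =
      ∑ F ∈ (forests ends).filter p, ∏ g ∈ (F.erase e).erase f, w g := by
  have h : inst = fun a => Classical.propDecidable (p a) := Subsingleton.elim _ _
  subst h
  rfl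

/-- The identity. -/
theorem identity {V E : Type*} [Fintype V] [Fintype E] (ends : E → Sym2 V)
    (hloop : ∀ g, ¬ (ends g).IsDiag) (e f : E) (hef : e ≠ f) (he : OnShortCycles ends e) :
    ∃ σ : Finset E → Finset E → ℤ, (∀ F S, |σ F S| ≤ 1) ∧ ∀ w : E → ℝ,
      part ends w e f (fun F => e ∈ F ∧ f ∉ F) * part ends w e f (fun F => e ∉ F ∧ f ∈ F) -
        part ends w e f (fun F => e ∈ F ∧ f ∈ F) * part ends w e f (fun F => e ∉ F ∧ f ∉ F) =
      ∑ S ∈ univ.filter (fun S : Finset E => e ∉ S ∧ f ∈ S), (∏ g ∈ S.erase f, w g) *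
        (∑ F ∈ (forests ends).filter (fun F => e ∉ F ∧ S ⊆ F),
          (σ F S : ℝ) * ∏ g ∈ F \ S, w g) ^ 2 := by
  obtain ⟨a, b, hab⟩ : ∃ a b, ends e = s(a, b) := by
    induction h : ends e using Sym2.ind with
    | _ a b => exact ⟨a, b, rfl⟩
  set U : Finset E := univ.erase e with hU
  have hcyc : ∀ n v c, Pool.Agent.SC.IsCycle ends n v c → e ∈ Set.range c → n + 2 ≤ 7 := by
    rintro n v c ⟨h1, h2, h3⟩ h4
    exact he n v c h1 h2 h3 h4
  obtain ⟨g, hg, hkey⟩ := Pool.Agent.SC.key_of_short hab hcyc (U := U) (by simp [hU])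
  refine ⟨fun F S => if F ∈ Pool.Agent.SC.AA ends U a b ∧ S ⊆ Pool.Agent.SC.Pth ends a b F then
    g F S else 0, ?_, ?_⟩
  · intro F S
    simp only
    split_ifs
    · exact hg F S
    · simp
  intro w
  -- forests
  have hF : ∀ F : Finset E, F ∈ forests ends ↔ Forest ends F := by
    intro F
    rw [forests, mem_filter, forest_iff hloop]
    simp
  -- weights with `w f = 1`
  set w' : E → ℝ := Function.update w f 1 with hw'
  have hw1 : ∀ F : Finset E, ∏ g ∈ F.erase f, w g = Pool.Agent.SC.wt w' F := by
    intro F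
    rw [Pool.Agent.SC.wt]
    by_cases hf : f ∈ F
    · rw [← Finset.mul_prod_erase F w' hf, hw', Function.update_self, one_mul]
      refine Finset.prod_congr rfl fun g hg => ?_
      rw [Function.update_of_ne (Finset.ne_of_mem_erase hg)]
    · rw [Finset.erase_eq_of_notMem hf]
      refine Finset.prod_congr rfl fun g hg => ?_
      have hgf : g ≠ f := fun h => hf (h ▸ hg)
      rw [hw', Function.update_of_ne hgf]
  have hsub : ∀ F : Finset E, F ⊆ U ↔ e ∉ F := by
    intro F
    constructor
    · intro h he
      have := h he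
      simp [hU] at this
    · intro h g hg
      rw [hU, mem_erase]
      exact ⟨fun h' => h (h' ▸ hg), mem_univ _⟩
  have hne : a ≠ b := by
    rintro rfl
    exact hloop e (by rw [hab]; simp)
  -- the four sums
  have k1 : ∀ (q : Finset E → Prop) [DecidablePred q], (∀ F, q (insert e F) ↔ q F) →
      part ends w e f (fun F => e ∈ F ∧ q F) =
        ∑ F ∈ (Pool.Agent.SC.NN ends U a b).filter q, Pool.Agent.SC.wt w' F := by
    intro q _ hq
    rw [part_eq]
    refine Finset.sum_bij' (fun F _ => F.erase e) (fun F _ => insert e F) ?_ ?_ ?_ ?_ ?_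
    · intro F h
      rw [mem_filter, hF] at h
      obtain ⟨h1, h2, h3⟩ := h
      rw [mem_filter, Pool.Agent.SC.mem_NN, hsub]
      refine ⟨⟨Finset.notMem_erase _ _, h1.subset (Finset.erase_subset _ _), h1 e h2 a b hab⟩, ?_⟩
      rw [← hq, Finset.insert_erase h2]
      exact h3
    · intro F h
      rw [mem_filter, Pool.Agent.SC.mem_NN, hsub] at h
      obtain ⟨⟨h1, h2, h3⟩, h4⟩ := h
      rw [mem_filter, hF]
      exact ⟨(forest_insert hab h1).mpr ⟨h2, h3⟩, mem_insert_self _ _, (hq F).mpr h4⟩
    · intro F h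
      rw [mem_filter] at h
      exact Finset.insert_erase h.2.1
    · intro F h
      rw [mem_filter, Pool.Agent.SC.mem_NN, hsub] at h
      exact Finset.erase_insert h.1.1
    · intro F h
      exact hw1 _
  have k2 : ∀ (q : Finset E → Prop) [DecidablePred q],
      part ends w e f (fun F => e ∉ F ∧ q F) =
        ∑ F ∈ (Pool.Agent.SC.NN ends U a b).filter q, Pool.Agent.SC.wt w' F +
        ∑ F ∈ (Pool.Agent.SC.AA ends U a b).filter q, Pool.Agent.SC.wt w' F := by
    intro q _
    rw [part_eq, ← Finset.sum_union]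
    · refine Finset.sum_congr ?_ ?_
      · ext F
        rw [mem_union, mem_filter, mem_filter, mem_filter, hF, Pool.Agent.SC.mem_NN,
          Pool.Agent.SC.mem_AA, hsub]
        tauto
      · intro F h
        rw [mem_union, mem_filter, mem_filter, Pool.Agent.SC.mem_NN,
          Pool.Agent.SC.mem_AA, hsub] at h
        have he' : e ∉ F := by
          rcases h with h | h
          · exact h.1.1
          · exact h.1.1
        rw [Finset.erase_eq_of_notMem he', hw1]
    · rw [Finset.disjoint_left]
      intro F h1 h2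
      rw [mem_filter, Pool.Agent.SC.mem_NN] at h1
      rw [mem_filter, Pool.Agent.SC.mem_AA] at h2
      exact h1.1.2.2 h2.1.2.2
  have hfe : ∀ F : Finset E, f ∈ insert e F ↔ f ∈ F := by
    intro F
    rw [mem_insert]
    exact ⟨fun h => h.resolve_left (Ne.symm hef), Or.inr⟩
  rw [k1 (fun F => f ∉ F) (fun F => not_congr (hfe F)), k1 (fun F => f ∈ F) hfe,
    k2 (fun F => f ∈ F), k2 (fun F => f ∉ F)]
  have hs := Pool.Agent.SC.sos (U := U) (fun F S => (g F S : ℝ)) w' (by
    intro F hF F0 hF0
    have := hkey F hF F0 hF0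
    have h2 := congrArg (fun z : ℤ => (z : ℝ)) this
    simp only [Int.cast_sum, Int.cast_one] at h2
    rw [← h2]
    refine Finset.sum_congr rfl fun S _ => ?_
    split_ifs <;> push_cast <;> rfl) f
  have hr : ∑ S ∈ univ.filter (fun S : Finset E => e ∉ S ∧ f ∈ S), (∏ g ∈ S.erase f, w g) *
        (∑ F ∈ (forests ends).filter (fun F => e ∉ F ∧ S ⊆ F),
          (((if F ∈ Pool.Agent.SC.AA ends U a b ∧ S ⊆ Pool.Agent.SC.Pth ends a b F then
            g F S else 0 : ℤ)) : ℝ) * ∏ g ∈ F \ S, w g) ^ 2 =
      ∑ S ∈ U.powerset.filter (fun S => f ∈ S), Pool.Agent.SC.wt w' S *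
        (∑ F ∈ (Pool.Agent.SC.AA ends U a b).filter
          (fun F => S ⊆ Pool.Agent.SC.Pth ends a b F),
          (g F S : ℝ) * Pool.Agent.SC.wt w' (F \ S)) ^ 2 := by
    refine Finset.sum_congr ?_ ?_
    · ext S
      rw [mem_filter, mem_filter, mem_powerset, hsub]
      simp
    · intro S hS
      rw [mem_filter, mem_powerset] at hS
      rw [hw1]
      congr 2
      have hin : (Pool.Agent.SC.AA ends U a b).filter
          (fun F => S ⊆ Pool.Agent.SC.Pth ends a b F) ⊆
          (forests ends).filter (fun F => e ∉ F ∧ S ⊆ F) := by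
        intro F h
        rw [mem_filter, Pool.Agent.SC.mem_AA, hsub] at h
        rw [mem_filter, hF]
        exact ⟨h.1.2.1, h.1.1, h.2.trans Pool.Agent.SC.pth_subset⟩
      rw [← Finset.sum_subset hin]
      · refine Finset.sum_congr rfl fun F h => ?_
        have h' := h
        rw [mem_filter] at h'
        rw [if_pos h', ← hw1, Finset.erase_eq_of_notMem]
        intro h2
        exact (mem_sdiff.mp h2).2 hS.2
      · intro F _ h2
        rw [if_neg]
        · simp
        · intro h3
          exact h2 (mem_filter.mpr h3)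
  rw [hr, ← hs]
  ring

/-- If 4 vertices, among them the ends of `e`, meet all edges, then `e` lies on no cycle with 8 or
more edges. -/
theorem cover {V E : Type*} (ends : E → Sym2 V) (e : E) (C : Finset V) (hC : C.card ≤ 4)
    (hcov : ∀ g, ∃ x ∈ ends g, x ∈ C) (he : ∀ x ∈ ends e, x ∈ C) : OnShortCycles ends e := by
  rintro n v c hv _ hends ⟨i, hi⟩
  set J : Finset (Fin (n + 2)) := univ.filter fun j => v j ∈ C with hJ
  have hcard : J.card ≤ 4 := by
    have h1 : (J.image v).card = J.card := Finset.card_image_of_injective _ hv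
    rw [← h1]
    refine (Finset.card_le_card ?_).trans hC
    intro x hx
    obtain ⟨j, hj, rfl⟩ := mem_image.mp hx
    exact (mem_filter.mp hj).2
  have h2 : ∀ j : Fin (n + 2), (if j = i then 1 else 0) + 1 ≤
      (if v j ∈ C then 1 else 0) + (if v (j + 1) ∈ C then 1 else 0) := by
    intro j
    by_cases hji : j = i
    · subst hji
      have h3 : v j ∈ C := he _ (by rw [← hi, hends]; exact Sym2.mem_mk_left _ _)
      have h4 : v (j + 1) ∈ C := he _ (by rw [← hi, hends]; exact Sym2.mem_mk_right _ _)
      simp [h3, h4]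
    · obtain ⟨x, hx, hxC⟩ := hcov (c j)
      rw [hends, Sym2.mem_iff] at hx
      rcases hx with rfl | rfl
      · simp [hji, hxC]
      · simp [hji, hxC]
  have h5 := Finset.sum_le_sum fun j (_ : j ∈ (univ : Finset (Fin (n + 2)))) => h2 j
  rw [Finset.sum_add_distrib, Finset.sum_add_distrib] at h5
  have h6 : ∑ j : Fin (n + 2), (if v j ∈ C then 1 else 0) = J.card := by
    rw [hJ, Finset.card_filter]
  have h7 : ∑ j : Fin (n + 2), (if v (j + 1) ∈ C then 1 else 0) = J.card := by
    rw [← h6]
    exact Equiv.sum_comp (Equiv.addRight (1 : Fin (n + 2))) fun j => if v j ∈ C then 1 else 0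
  rw [h6, h7] at h5
  simp at h5
  omega

/-- Let `e ≠ f` be edges of a finite loopless multigraph.
(1) If `e` lies on no cycle with 8 or more edges, then the Rayleigh difference of the forest
polynomial at `e` and `f` is a sum of squares of polynomials with coefficients `0, ±1`, multiplied
by monomials.
(2) If `e` or `f` lies on no cycle with 8 or more edges, then `e` and `f` are negatively correlated
for all weights `w ≥ 0`.
(3) If 4 vertices, among them the ends of `e`, meet all edges, then `e` lies on no cycle with 8 or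
more edges, so that (1) and (2) apply. -/
theorem result {V E : Type*} [Fintype V] [Fintype E] (ends : E → Sym2 V)
    (hloop : ∀ g, ¬ (ends g).IsDiag) (e f : E) (hef : e ≠ f) :
    (OnShortCycles ends e →
      ∃ σ : Finset E → Finset E → ℤ, (∀ F S, |σ F S| ≤ 1) ∧ ∀ w : E → ℝ,
        part ends w e f (fun F => e ∈ F ∧ f ∉ F) * part ends w e f (fun F => e ∉ F ∧ f ∈ F) -
          part ends w e f (fun F => e ∈ F ∧ f ∈ F) * part ends w e f (fun F => e ∉ F ∧ f ∉ F) =
        ∑ S ∈ univ.filter (fun S : Finset E => e ∉ S ∧ f ∈ S), (∏ g ∈ S.erase f, w g) *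
          (∑ F ∈ (forests ends).filter (fun F => e ∉ F ∧ S ⊆ F),
            (σ F S : ℝ) * ∏ g ∈ F \ S, w g) ^ 2) ∧
    (OnShortCycles ends e ∨ OnShortCycles ends f → ∀ w : E → ℝ, (∀ g, 0 ≤ w g) →
      prob ends w (fun F => e ∈ F ∧ f ∈ F) ≤
        prob ends w (fun F => e ∈ F) * prob ends w (fun F => f ∈ F)) ∧
    (∀ C : Finset V, C.card ≤ 4 → (∀ g, ∃ x ∈ ends g, x ∈ C) → (∀ x ∈ ends e, x ∈ C) →
      OnShortCycles ends e) := by
  have main : ∀ e f : E, e ≠ f → OnShortCycles ends e → ∀ w : E → ℝ, (∀ g, 0 ≤ w g) →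
      prob ends w (fun F => e ∈ F ∧ f ∈ F) ≤
        prob ends w (fun F => e ∈ F) * prob ends w (fun F => f ∈ F) := by
    intro e f hef he w hw
    obtain ⟨σ, _, hσ⟩ := identity ends hloop e f hef he
    have h1 := hσ w
    have h2 : 0 ≤ ∑ S ∈ univ.filter (fun S : Finset E => e ∉ S ∧ f ∈ S),
        (∏ g ∈ S.erase f, w g) * (∑ F ∈ (forests ends).filter (fun F => e ∉ F ∧ S ⊆ F),
          (σ F S : ℝ) * ∏ g ∈ F \ S, w g) ^ 2 :=
      Finset.sum_nonneg fun S _ => mul_nonneg (Finset.prod_nonneg fun g _ => hw g) (sq_nonneg _)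
    rw [← h1] at h2
    set M10 := part ends w e f (fun F => e ∈ F ∧ f ∉ F) with hM10
    set M01 := part ends w e f (fun F => e ∉ F ∧ f ∈ F) with hM01
    set M11 := part ends w e f (fun F => e ∈ F ∧ f ∈ F) with hM11
    set M00 := part ends w e f (fun F => e ∉ F ∧ f ∉ F) with hM00
    have hpos : 0 < ∑ F ∈ forests ends, ∏ g ∈ F, w g := by
      have h0 : (∅ : Finset E) ∈ forests ends := by
        rw [forests, mem_filter]
        refine ⟨mem_univ _, ?_⟩
        rintro ⟨n, v, c, _, _, h⟩
        exact absurd (h 0).1 (Finset.notMem_empty _)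
      refine lt_of_lt_of_le one_pos ?_
      have h1 := Finset.single_le_sum (f := fun F : Finset E => ∏ g ∈ F, w g)
        (fun F _ => Finset.prod_nonneg fun g _ => hw g) h0
      simpa using h1
    have hfe : ∀ F : Finset E, e ∈ F → f ∈ F → ∏ g ∈ F, w g =
        w e * (w f * ∏ g ∈ (F.erase e).erase f, w g) := by
      intro F h1 h2
      rw [← Finset.mul_prod_erase F w h1, ← Finset.mul_prod_erase (F.erase e) w
        (Finset.mem_erase.mpr ⟨Ne.symm hef, h2⟩)]
    have e11 : ∑ F ∈ (forests ends).filter (fun F => e ∈ F ∧ f ∈ F), ∏ g ∈ F, w g =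
        w e * w f * M11 := by
      rw [hM11, part_eq, Finset.mul_sum]
      refine Finset.sum_congr rfl fun F h => ?_
      rw [mem_filter] at h
      rw [hfe F h.2.1 h.2.2]
      ring
    have e10 : ∑ F ∈ (forests ends).filter (fun F => e ∈ F ∧ f ∉ F), ∏ g ∈ F, w g =
        w e * M10 := by
      rw [hM10, part_eq, Finset.mul_sum]
      refine Finset.sum_congr rfl fun F h => ?_
      rw [mem_filter] at h
      rw [← Finset.mul_prod_erase F w h.2.1,
        Finset.erase_eq_of_notMem (fun h' => h.2.2 (Finset.mem_of_mem_erase h'))]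
    have e01 : ∑ F ∈ (forests ends).filter (fun F => e ∉ F ∧ f ∈ F), ∏ g ∈ F, w g =
        w f * M01 := by
      rw [hM01, part_eq, Finset.mul_sum]
      refine Finset.sum_congr rfl fun F h => ?_
      rw [mem_filter] at h
      rw [← Finset.mul_prod_erase F w h.2.2, Finset.erase_eq_of_notMem h.2.1]
    have e00 : ∑ F ∈ (forests ends).filter (fun F => e ∉ F ∧ f ∉ F), ∏ g ∈ F, w g = M00 := by
      rw [hM00, part_eq]
      refine Finset.sum_congr rfl fun F h => ?_
      rw [mem_filter] at h
      rw [Finset.erase_eq_of_notMem h.2.1, Finset.erase_eq_of_notMem h.2.2]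
    have s1 : ∑ F ∈ (forests ends).filter (fun F => e ∈ F), ∏ g ∈ F, w g =
        w e * M10 + w e * w f * M11 := by
      rw [← e11, ← e10, Finset.sum_filter, Finset.sum_filter, Finset.sum_filter,
        ← Finset.sum_add_distrib]
      refine Finset.sum_congr rfl fun F _ => ?_
      by_cases h1 : e ∈ F <;> by_cases h2 : f ∈ F <;> simp [h1, h2]
    have s2 : ∑ F ∈ (forests ends).filter (fun F => f ∈ F), ∏ g ∈ F, w g =
        w f * M01 + w e * w f * M11 := by
      rw [← e11, ← e01, Finset.sum_filter, Finset.sum_filter, Finset.sum_filter,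
        ← Finset.sum_add_distrib]
      refine Finset.sum_congr rfl fun F _ => ?_
      by_cases h1 : e ∈ F <;> by_cases h2 : f ∈ F <;> simp [h1, h2]
    have s0 : ∑ F ∈ forests ends, ∏ g ∈ F, w g =
        M00 + w e * M10 + w f * M01 + w e * w f * M11 := by
      rw [← e11, ← e01, ← e10, ← e00, Finset.sum_filter, Finset.sum_filter, Finset.sum_filter,
        Finset.sum_filter, ← Finset.sum_add_distrib, ← Finset.sum_add_distrib,
        ← Finset.sum_add_distrib]
      refine Finset.sum_congr rfl fun F _ => ?_
      by_cases h1 : e ∈ F <;> by_cases h2 : f ∈ F <;> simp [h1, h2]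
    rw [prob_eq, prob_eq, prob_eq, div_mul_div_comm, div_le_div_iff₀ hpos (mul_pos hpos hpos), e11, s1, s2]
    have h3 : 0 ≤ w e * w f * (∑ F ∈ forests ends, ∏ g ∈ F, w g) * (M10 * M01 - M11 * M00) :=
      mul_nonneg (mul_nonneg (mul_nonneg (hw e) (hw f)) hpos.le) h2
    rw [s0] at h3 ⊢
    nlinarith [h3]
  have symm : ∀ e f : E, ∀ w : E → ℝ, prob ends w (fun F => e ∈ F ∧ f ∈ F) =
      prob ends w (fun F => f ∈ F ∧ e ∈ F) := by
    intro e f w
    rw [prob_eq, prob_eq]
    congr 1
    refine Finset.sum_congr ?_ fun _ _ => rfl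
    ext F
    rw [mem_filter, mem_filter]
    tauto
  refine ⟨identity ends hloop e f hef, ?_, ?_⟩
  · rintro (h | h) w hw
    · exact main e f hef h w hw
    · rw [symm, mul_comm]
      exact main f e hef.symm h w hw
  · intro C hC hcov he
    exact cover ends e C hC hcov he

end Pool.Agent.SC.Main
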